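import Mathlib

/-! Invertible measure preserving transformations modulo null sets, the weak topology,
extensions of a fixed factor and strongly mixing extensions. -/

open MeasureTheory Set Filter Topology
open scoped symmDiff ENNReal ComplexConjugate

namespace Pool.Agent.Work.MP_2967d5_an

section General

variable {Z : Type*} [MeasurableSpace Z]

/-- Measure preserving bimeasurable bijections are identified when they agree almost everywhere. -/
def autSetoid (μ : Measure Z) : Setoid {T : Z ≃ᵐ Z // MeasurePreserving T μ μ} where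
  r S T := (S.1 : Z → Z) =ᵐ[μ] (T.1 : Z → Z)
  iseqv := ⟨fun _ => EventuallyEq.rfl, fun h => h.symm, fun h h' => h.trans h'⟩

/-- The invertible measure preserving transformations of `(Z, μ)` modulo null sets. -/
def Aut (μ : Measure Z) : Type _ := Quotient (autSetoid μ)

/-- A representative of a transformation. -/
noncomputable def Aut.rep {μ : Measure Z} (T : Aut μ) : Z ≃ᵐ Z := (Quotient.out T).1

/-- The weak topology, generated by the sets `N_ε(T; E) = {S : μ (T E ∆ S E) < ε}`. -/
instance weakTopology (μ : Measure Z) : TopologicalSpace (Aut μ) :=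
  TopologicalSpace.generateFrom {N | ∃ (T : Aut μ) (E : Set Z) (ε : ℝ), MeasurableSet E ∧ 0 < ε ∧
    N = {S | μ.real ((T.rep '' E) ∆ (S.rep '' E)) < ε}}

/-- `R` is strongly mixing. -/
def IsMixing {μ : Measure Z} (R : Aut μ) : Prop :=
  ∀ A B : Set Z, MeasurableSet A → MeasurableSet B →
    Tendsto (fun n : ℕ => μ.real (A ∩ R.rep^[n] ⁻¹' B)) atTop (𝓝 (μ.real A * μ.real B))

end General

variable {X Y : Type*} [MeasurableSpace X] [MeasurableSpace Y]

/-- The set `G_R` of the transformations of `X × Y` extending `R`. -/
def Extensions {m : Measure X} (η : Measure Y) (R : Aut m) : Set (Aut (m.prod η)) :=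
  {T | ∀ᵐ z ∂(m.prod η), (T.rep z).1 = R.rep z.1}

/-- Conditional expectation onto the first factor, as a function on `X`. -/
noncomputable def condE (η : Measure Y) (f : X × Y → ℂ) (x : X) : ℂ := ∫ y, f (x, y) ∂η

/-- The space `L²(Z | X)`. -/
def MemL2Rel (m : Measure X) (η : Measure Y) (f : X × Y → ℂ) : Prop :=
  MemLp f 2 (m.prod η) ∧ MemLp (fun x => √(∫ y, ‖f (x, y)‖ ^ 2 ∂η)) ∞ m

/-- The set `S_R` of strongly mixing extensions of `R`, as a subset of `G_R`. -/
def MixingExtensions {m : Measure X} (η : Measure Y) (R : Aut m) : Set (Extensions η R) :=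
  {T | ∀ f g : X × Y → ℂ, MemL2Rel m η f → MemL2Rel m η g →
    Tendsto (fun n : ℕ => eLpNorm (fun x =>
      condE η (fun z => f (T.1.rep^[n] z) * conj (g z)) x -
        condE η f (R.rep^[n] x) * condE η (fun z => conj (g z)) x) 2 m) atTop (𝓝 0)}

end Pool.Agent.Work.MP_2967d5_an
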